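import Mathlib

namespace Pool.Agent.H.MP_454c72_al

open Finset

/-- The `n`th Pascalian polynomial evaluated at `z`. -/
noncomputable def P (n : ℕ) (z : ℂ) : ℂ :=
  ∑ k ∈ range (n + 1), (n.choose ((n - k) / 2) : ℂ) * z ^ (n - k)

theorem ek (a : ℕ → ℝ) (t ε : ℝ) (hε : |ε| = 1) (y : ℂ) (k : ℕ)
    (h : ∀ i < k, 0 ≤ ε * (t * a (i + 1) - a i)) :
    ‖(t - y) * ∑ i ∈ range (k + 1), (a i : ℂ) * y ^ i + a k * y ^ (k + 1) - t * a 0‖ ≤
      ε * ((t - ‖y‖) * ∑ i ∈ range (k + 1), a i * ‖y‖ ^ i + a k * ‖y‖ ^ (k + 1) - t * a 0) := by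
  induction k with
  | zero =>
    have e1 : (t - y) * ∑ i ∈ range (0 + 1), (a i : ℂ) * y ^ i + a 0 * y ^ (0 + 1) - t * a 0 = 0 := by
      simp; ring
    rw [e1]; simp; ring_nf; rfl
  | succ k ih =>
    have h1 := ih fun i hi => h i (by omega)
    have h2 : ‖((t * a (k + 1) - a k : ℝ) : ℂ) * y ^ (k + 1)‖ =
        ε * (t * a (k + 1) - a k) * ‖y‖ ^ (k + 1) := by
      rw [norm_mul, norm_pow, Complex.norm_real, Real.norm_eq_abs,
        ← abs_of_nonneg (h k (by omega)), abs_mul, hε, one_mul]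
    rw [sum_range_succ _ (k + 1), sum_range_succ _ (k + 1)]
    refine le_trans (le_of_eq ?_) ((norm_add_le _ _).trans ((add_le_add h1 h2.le).trans_eq ?_))
    · congr 1; push_cast; ring
    · ring

theorem spos (a : ℕ → ℝ) (r : ℝ) (hr : 0 ≤ r) (k : ℕ) (h : ∀ i, 0 < a i) :
    0 < ∑ i ∈ range (k + 1), a i * r ^ i :=
  sum_pos' (fun i _ => mul_nonneg (h i).le (pow_nonneg hr _)) ⟨0, by simp, by simpa using h 0⟩

theorem eklow (a : ℕ → ℝ) (t : ℝ) (ht : 0 ≤ t) (y : ℂ) (k : ℕ) (h0 : ∀ i, 0 < a i)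
    (h : ∀ i < k, t * a (i + 1) ≤ a i) (hy : ∑ i ∈ range (k + 1), (a i : ℂ) * y ^ i = 0) :
    t ≤ ‖y‖ := by
  have h1 := ek a t (-1) (by simp) y k fun i hi => by linarith [h i hi]
  have h2 := norm_sub_norm_le ((t : ℂ) * a 0) (a k * y ^ (k + 1))
  rw [hy, mul_zero, zero_add, norm_sub_rev] at h1
  simp only [norm_mul, norm_pow, Complex.norm_real, Real.norm_of_nonneg ht,
    Real.norm_of_nonneg (h0 _).le] at h2
  nlinarith [spos a _ (norm_nonneg y) k h0]

theorem ekup (a : ℕ → ℝ) (t : ℝ) (ht : 0 ≤ t) (y : ℂ) (k : ℕ) (h0 : ∀ i, 0 < a i)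
    (h : ∀ i < k, a i ≤ t * a (i + 1)) (hy : ∑ i ∈ range (k + 1), (a i : ℂ) * y ^ i = 0) :
    ‖y‖ ≤ t := by
  have h1 := ek a t 1 (by simp) y k fun i hi => by linarith [h i hi]
  have h2 := norm_sub_norm_le (a k * y ^ (k + 1)) ((t : ℂ) * a 0)
  rw [hy, mul_zero, zero_add] at h1
  have h3 : ‖(a k : ℂ) * y ^ (k + 1)‖ ≤
      ‖a k * y ^ (k + 1) - (t : ℂ) * a 0‖ + ‖(t : ℂ) * a 0‖ := by linarith
  simp only [norm_mul, norm_pow, Complex.norm_real, Real.norm_of_nonneg ht,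
    Real.norm_of_nonneg (h0 _).le] at h3
  nlinarith [spos a _ (norm_nonneg y) k h0]

noncomputable def b (i : ℕ) : ℝ := i.centralBinom / 4 ^ i

theorem b_pos (i) : 0 < b i := div_pos (by exact_mod_cast i.centralBinom_pos) (by positivity)

theorem b_zero : b 0 = 1 := by simp [b]

theorem b_succ (i : ℕ) : b (i + 1) = (2 * i + 1) / (2 * i + 2) * b i := by
  have h : ((i : ℝ) + 1) * (i + 1).centralBinom = 2 * (2 * i + 1) * i.centralBinom := by
    exact_mod_cast Nat.succ_mul_centralBinom_succ i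
  unfold b
  field_simp
  rw [pow_succ]
  linear_combination (2 * 4 ^ i) * h

theorem b_sq (k : ℕ) : b k ^ 2 * (3 * k + 1) ≤ 1 := by
  induction k with
  | zero => simp [b_zero]
  | succ k ih =>
    refine le_trans ?_ ih
    rw [b_succ, mul_pow, mul_comm _ (b k ^ 2), mul_assoc]
    refine mul_le_mul_of_nonneg_left ?_ (sq_nonneg _)
    rw [div_pow, div_mul_eq_mul_div, div_le_iff₀ (by positivity)]
    push_cast
    nlinarith [(k.cast_nonneg : (0 : ℝ) ≤ k)]

theorem cb (n : ℕ) : (n.choose (n / 2) : ℝ) = 2 ^ n * b ((n + 1) / 2) := by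
  obtain ⟨i, rfl | rfl⟩ := n.even_or_odd'
  · rw [show 2 * i / 2 = i by omega, show (2 * i + 1) / 2 = i by omega, b, pow_mul,
      Nat.centralBinom_eq_two_mul_choose]
    field_simp; norm_num
  · rw [show (2 * i + 1) / 2 = i by omega, show (2 * i + 1 + 1) / 2 = i + 1 by omega, b,
      Nat.centralBinom_eq_two_mul_choose, show 2 * (i + 1) = 2 * i + 1 + 1 by ring,
      Nat.choose_succ_succ', Nat.choose_symm_half, pow_succ, pow_mul, pow_succ]
    push_cast
    field_simp; norm_num; ring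

noncomputable def A (n : ℕ) (v : ℂ) : ℂ := ∑ i ∈ range (n + 1), (b (i / 2) : ℂ) * v ^ i

theorem P_succ (n : ℕ) (z : ℂ) :
    P (n + 1) z = (1 + z ^ 2) * P n z + (n.choose (n / 2) : ℂ) * z ^ (n + 1) * (1 - z) := by
  have e : ∀ n, P n z = ∑ j ∈ range (n + 1), (n.choose (j / 2) : ℂ) * z ^ j := fun n =>
    sum_flip fun j => (n.choose (j / 2) : ℂ) * z ^ j
  have g : ∀ N, ∑ j ∈ range (N + 2), ((n + 1).choose (j / 2) : ℂ) * z ^ j =
      ∑ j ∈ range (N + 2), (n.choose (j / 2) : ℂ) * z ^ j +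
        z ^ 2 * ∑ j ∈ range N, (n.choose (j / 2) : ℂ) * z ^ j := by
    intro N
    induction N with
    | zero => simp [sum_range_succ]
    | succ N ih =>
      rw [sum_range_succ, ih, sum_range_succ _ (N + 2), sum_range_succ _ N,
        show (N + 2) / 2 = N / 2 + 1 by omega, Nat.choose_succ_succ']
      push_cast; ring
  rw [e, e, g, sum_range_succ _ (n + 1), sum_range_succ _ n,
    Nat.choose_symm_of_eq_add (show n = (n + 1) / 2 + n / 2 by omega)]
  ring

theorem P_eq (n : ℕ) (z : ℂ) (hz : 1 + z ^ 2 ≠ 0) :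
    2 * P n z = (1 + z ^ 2) ^ n * (1 + z + (1 - z) * A n (2 * z / (1 + z ^ 2))) := by
  induction n with
  | zero => simp [P, A, b_zero]; ring
  | succ n ih =>
    have h : (n.choose (n / 2) : ℂ) = 2 ^ n * b ((n + 1) / 2) := by exact_mod_cast cb n
    have h2 : (1 + z ^ 2) ^ (n + 1) * (2 * z / (1 + z ^ 2)) ^ (n + 1) = (2 * z) ^ (n + 1) := by
      rw [← mul_pow, mul_div_cancel₀ _ hz]
    rw [P_succ, A, sum_range_succ, ← A, h]
    linear_combination (1 + z ^ 2) * ih - (1 - z) * b ((n + 1) / 2) * h2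

noncomputable def T (k : ℕ) (y : ℂ) : ℂ := ∑ i ∈ range (k + 1), (b i : ℂ) * y ^ i

noncomputable def U (k : ℕ) (y : ℂ) : ℂ :=
  ∑ i ∈ range (k + 1), ((b i / (k + 1 + i) : ℝ) : ℂ) * y ^ i

theorem A_odd (k : ℕ) (v : ℂ) : A (2 * k + 1) v = (1 + v) * T k (v ^ 2) := by
  induction k with
  | zero => simp [A, T, sum_range_succ, b_zero]
  | succ k ih =>
    rw [A, show 2 * (k + 1) + 1 + 1 = 2 * k + 1 + 1 + 1 + 1 by ring, sum_range_succ, sum_range_succ,
      ← A, ih, T, T, sum_range_succ _ (k + 1), show (2 * k + 1 + 1) / 2 = k + 1 by omega,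
      show (2 * k + 1 + 1 + 1) / 2 = k + 1 by omega]
    ring

theorem T_der (k : ℕ) (y : ℂ) : ∃ d, HasDerivAt (T k) d y ∧
    2 * (1 - y) * d - T k y = -(2 * k + 1) * b k * y ^ k := by
  induction k with
  | zero => exact ⟨0, by unfold T; simpa using hasDerivAt_const y _, by simp [T]⟩
  | succ k ih =>
    obtain ⟨d, h1, h2⟩ := ih
    have e : T (k + 1) = fun y => T k y + b (k + 1) * y ^ (k + 1) := by
      ext y; rw [T, sum_range_succ]; rfl
    have h3 : (2 * k + 2 : ℂ) * b (k + 1) = (2 * k + 1) * b k := by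
      have : (2 * k + 2 : ℝ) * b (k + 1) = (2 * k + 1) * b k := by rw [b_succ]; field_simp
      exact_mod_cast this
    rw [e]
    refine ⟨_, h1.add ((hasDerivAt_pow (k + 1) y).const_mul _), ?_⟩
    simp only [Nat.add_sub_cancel]
    push_cast
    linear_combination h2 + y ^ k * h3

theorem TU (k : ℕ) (y : ℂ) :
    (1 - y) * T k y ^ 2 + (2 * k + 1) * b k * (y ^ (k + 1) * U k y) = 1 := by
  have e : ∀ y : ℂ, y ^ (k + 1) * U k y =
      ∑ i ∈ range (k + 1), ((b i / (k + 1 + i) : ℝ) : ℂ) * y ^ (k + i + 1) := fun y => by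
    rw [U, mul_sum]; exact sum_congr rfl fun i _ => by ring
  have key : ∀ y : ℂ, HasDerivAt
      (fun y => (1 - y) * T k y ^ 2 + (2 * k + 1) * b k * (y ^ (k + 1) * U k y)) 0 y := by
    intro y
    obtain ⟨d, h1, h2⟩ := T_der k y
    have h3 : HasDerivAt (fun y => y ^ (k + 1) * U k y) (y ^ k * T k y) y := by
      simp only [e]
      rw [T, mul_sum]
      refine HasDerivAt.fun_sum fun i _ => ?_
      refine ((hasDerivAt_pow (k + i + 1) y).const_mul ((b i / (k + 1 + i) : ℝ) : ℂ)).congr_deriv ?_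
      have : (k + 1 + i : ℂ) ≠ 0 := by exact_mod_cast (by omega : k + 1 + i ≠ 0)
      simp only [Nat.add_sub_cancel]
      push_cast
      field_simp
      ring
    refine ((((hasDerivAt_id y).const_sub 1).mul (h1.pow 2)).add (h3.const_mul _)).congr_deriv ?_
    simp only [id, Pi.pow_apply]
    push_cast
    linear_combination (T k y) * h2
  have := is_const_of_deriv_eq_zero (fun y => (key y).differentiableAt) (fun y => (key y).deriv) y 0
  rw [this]
  simp [T, sum_range_succ', b_zero]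

end Pool.Agent.H.MP_454c72_al
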