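import Pool.Agent.H.MP_454c72_al.A

namespace Pool.Agent.H.MP_454c72_al

open Finset

theorem odd_case (k : ℕ) (y : ℂ) (y0 : y ≠ 0) (h : (1 - y) * T k y ^ 2 = 1) :
    0 < k ∧ (2 * k + 1) / (2 * k - 1) ≤ ‖y‖ := by
  have h1 : (2 * k + 1 : ℂ) * b k * (y ^ (k + 1) * U k y) = 0 := by linear_combination TU k y - h
  have h2 : (2 * k + 1 : ℂ) * b k ≠ 0 := by
    exact_mod_cast (mul_pos (by positivity) (b_pos k) : (0 : ℝ) < (2 * k + 1) * b k).ne'
  have h3 : U k y = 0 := by simpa [h2, y0] using (mul_eq_zero.1 h1).resolve_left h2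
  rcases k.eq_zero_or_pos with rfl | hk
  · simp [U, b_zero] at h3
  have k1 : (1 : ℝ) ≤ k := by exact_mod_cast hk
  have k2 : (0 : ℝ) < 2 * k - 1 := by linarith
  refine ⟨hk, eklow (fun i => b i / (k + 1 + i)) _ (by positivity) y k
    (fun i => div_pos (b_pos i) (by positivity)) (fun i hi => ?_) h3⟩
  have i1 : (i : ℝ) + 1 ≤ k := by exact_mod_cast hi
  have i0 : (0 : ℝ) ≤ i := i.cast_nonneg
  have := b_pos i
  simp only [b_succ]
  push_cast
  rw [div_mul_div_comm, div_le_div_iff₀ (by positivity) (by positivity)]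
  field_simp
  nlinarith [mul_nonneg i0 (sub_nonneg.2 i1), mul_nonneg (sub_nonneg.2 i1) (sub_nonneg.2 i1),
    mul_nonneg (sub_nonneg.2 k1) (sub_nonneg.2 i1)]

theorem even_case (j : ℕ) (v : ℂ) (v1 : 1 ≤ ‖v‖)
    (h : (1 - v) * A (2 * j + 1 + 1) v ^ 2 = 1 + v) : (2 * j + 4) / (2 * j + 3) < ‖v‖ := by
  by_contra hc
  rw [not_lt] at hc
  set y := v ^ 2 with hy
  set p : ℂ := b (j + 1) * y ^ (j + 1) with hp
  let z : ℕ → ℝ := fun i => (2 * i + 1) * b i / (j + 2 + i)
  have zj : z j = b (j + 1) := by simp only [z, b_succ]; field_simp; ring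
  set Z := ∑ i ∈ range (j + 1), (z i : ℂ) * y ^ i with hZ
  have eT : T (j + 1) y = T j y + p := sum_range_succ _ _
  have eA : A (2 * j + 1 + 1) v = (1 + v) * T j y + p := by
    rw [A, sum_range_succ, ← A, A_odd, show (2 * j + 1 + 1) / 2 = j + 1 by omega, hp, hy, ← pow_mul]
    rfl
  have eZ : Z = 2 * T (j + 1) y - (2 * (j + 1 : ℕ) + 1) * U (j + 1) y - p := by
    rw [T, U, mul_sum, mul_sum, ← sum_sub_distrib, sum_range_succ _ (j + 1), hZ, hp]
    have a1 : (j + 1 + 1 + (j + 1) : ℂ) ≠ 0 := by exact_mod_cast (by omega : j + 1 + 1 + (j + 1) ≠ 0)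
    rw [sum_congr rfl (g := fun i => 2 * ((b i : ℂ) * y ^ i) - (2 * (j + 1 : ℕ) + 1) *
      (((b i / ((j + 1 : ℕ) + 1 + i) : ℝ) : ℂ) * y ^ i)) fun i _ => ?_]
    · push_cast; field_simp; ring
    · have a2 : (j + 1 + 1 + i : ℂ) ≠ 0 := by exact_mod_cast (by omega : j + 1 + 1 + i ≠ 0)
      have a3 : (j + 2 + i : ℂ) ≠ 0 := by exact_mod_cast (by omega : j + 2 + i ≠ 0)
      simp only [z]; push_cast; field_simp; ring
  have y1 : 1 ≤ ‖y‖ := by rw [hy, norm_pow]; exact one_le_pow₀ v1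
  have y0 : y ≠ 0 := norm_pos_iff.1 (by linarith)
  have p0 : p ≠ 0 := mul_ne_zero (by exact_mod_cast (b_pos _).ne') (pow_ne_zero _ y0)
  have hY : 1 - (T (j + 1) y ^ 2 - y * T j y ^ 2) = -(p * y * Z) := by
    have := TU (j + 1) y
    rw [eZ]
    rw [eT] at this ⊢
    rw [pow_succ y (j + 1)] at this
    linear_combination -this
  have h4 : (1 - y) * Z * (y * Z) = 4 := by
    have a1 : (1 - y) * (1 - (T (j + 1) y ^ 2 - y * T j y ^ 2)) ^ 2 = 4 * p ^ 2 * y := by
      rw [eA] at h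
      rw [eT, hy] at *
      linear_combination (-((1 - v) - (1 + v) * ((1 - v) * T j (v ^ 2) + p) ^ 2)) * h
    rw [hY] at a1
    refine mul_left_cancel₀ (mul_ne_zero (pow_ne_zero 2 p0) y0) ?_
    linear_combination a1
  have z0 : ∀ i, 0 < z i := fun i => div_pos (mul_pos (by positivity) (b_pos i)) (by positivity)
  have zm : ∀ i < j, z i ≤ z (i + 1) := fun i hi => by
    have i1 : (i : ℝ) + 1 ≤ j := by exact_mod_cast hi
    have i0 : (0 : ℝ) ≤ i := i.cast_nonneg
    have := b_pos i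
    simp only [z, b_succ]
    push_cast
    rw [div_le_div_iff₀ (by positivity) (by positivity)]
    field_simp
    nlinarith
  have zl : ∀ i ≤ j, z i ≤ z j := fun i hi => by
    induction hi using Nat.decreasingInduction with
    | self => rfl
    | of_succ i hi ih => exact (zm i hi).trans ih
  set r := ‖y‖ with hr
  have b1 : ‖(1 - y) * Z‖ ≤ 2 * z j * r ^ (j + 1) := by
    have a1 := ek z 1 1 (by simp) y j fun i hi => by linarith [zm i hi]
    have a2 : (1 - y) * Z = ((1 : ℝ) - y) * Z + z j * y ^ (j + 1) - (1 : ℝ) * z 0 -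
      z j * y ^ (j + 1) + z 0 := by push_cast; ring
    have a3 := (norm_add_le _ _).trans (add_le_add (norm_sub_le
      (((1 : ℝ) - y) * Z + z j * y ^ (j + 1) - (1 : ℝ) * z 0) (z j * y ^ (j + 1))) (le_refl ‖(z 0 : ℂ)‖))
    rw [← a2, norm_mul (z j : ℂ), norm_pow, Complex.norm_real, Complex.norm_real,
      Real.norm_of_nonneg (z0 _).le, Real.norm_of_nonneg (z0 _).le] at a3
    nlinarith [spos z r (by linarith) j z0]
  set ρ : ℝ := (2 * j + 4) / (2 * j + 3) with hρ
  have ρ1 : 1 ≤ ρ := v1.trans hc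
  have r1 : r ≤ ρ ^ 2 := by rw [hr, hy, norm_pow]; gcongr
  have b2 : ‖y * Z‖ ≤ z j * (ρ ^ 2 * ∑ i ∈ range (j + 1), (ρ ^ 2) ^ i) := by
    rw [norm_mul, mul_left_comm, mul_sum]
    refine mul_le_mul r1 ((norm_sum_le _ _).trans (sum_le_sum fun i hi => ?_)) (norm_nonneg _)
      (by positivity)
    rw [norm_mul, norm_pow, Complex.norm_real, Real.norm_of_nonneg (z0 _).le]
    have := z0 j
    gcongr
    exact zl i (Nat.lt_succ_iff.1 (mem_range.1 hi))
  have j0 : (0 : ℝ) ≤ j := j.cast_nonneg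
  set q := (ρ ^ 2) ^ (j + 1) with hq
  set S := ∑ i ∈ range (j + 1), (ρ ^ 2) ^ i
  have S0 : 0 ≤ S := by positivity
  have g1 : S * (ρ ^ 2 - 1) = q - 1 := geom_sum_mul _ _
  have g2 : 2 ≤ (ρ ^ 2 - 1) * (2 * j + 3) := by
    rw [hρ]; field_simp; nlinarith
  have g3 : q * ρ ≤ 2.72 := by
    have a1 : ρ ≤ Real.exp (1 / (2 * j + 3)) := by
      refine le_trans (le_of_eq ?_) (Real.add_one_le_exp _)
      rw [hρ]; field_simp; ring
    have a2 : ρ ^ (2 * j + 3) ≤ Real.exp 1 := by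
      refine (pow_le_pow_left₀ (by linarith) a1 _).trans_eq ?_
      rw [← Real.exp_nat_mul]; congr 1; push_cast; field_simp
    have := Real.exp_one_lt_d9
    rw [hq, ← pow_mul, ← pow_succ, show 2 * (j + 1) + 1 = 2 * j + 3 by ring]
    linarith
  have q1 : 1 ≤ q := one_le_pow₀ (one_le_pow₀ ρ1)
  have g4 : r ^ (j + 1) ≤ q := by rw [hq]; gcongr
  have g5 : z j ^ 2 * (3 * j + 4) ≤ 1 := by
    have := b_sq (j + 1); rw [zj]; push_cast at this; linarith
  have g6 : 4 ≤ 2 * z j * q * (z j * (ρ ^ 2 * S)) := by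
    have := z0 j
    calc (4 : ℝ) = ‖(1 - y) * Z‖ * ‖y * Z‖ := by rw [← norm_mul, h4]; simp
      _ ≤ _ := mul_le_mul (b1.trans (by gcongr)) b2 (norm_nonneg _) (by positivity)
  have g7 : 2 * S ≤ (q - 1) * (2 * j + 3) := by nlinarith
  have g8 : q * ρ ^ 2 * (q - 1) ≤ 4.7 := by
    have : q * ρ ^ 2 * (q - 1) ≤ q * ρ * (q * ρ - 1) := by nlinarith [mul_pos (by linarith : 0 < q) (by linarith : 0 < ρ)]
    nlinarith [mul_le_mul q1 ρ1 zero_le_one (by linarith : 0 ≤ q)]
  have g9 : z j ^ 2 * (2 * j + 3) ≤ 3 / 4 := by nlinarith [sq_nonneg (z j)]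
  have g10 : 2 * z j * q * (z j * (ρ ^ 2 * S)) ≤ (z j ^ 2 * (2 * j + 3)) * (q * ρ ^ 2 * (q - 1)) := by
    have : 0 ≤ z j ^ 2 * (q * ρ ^ 2) := by positivity
    nlinarith [mul_le_mul_of_nonneg_left g7 this]
  have : (z j ^ 2 * (2 * j + 3)) * (q * ρ ^ 2 * (q - 1)) ≤ 3 / 4 * 4.7 :=
    mul_le_mul g9 g8 (mul_nonneg (by positivity) (by linarith)) (by norm_num)
  linarith

theorem main {m n : ℕ} (hmn : m < n) {z : ℂ} (hn : P n z = 0) (hm : P m z = 0) : z = -1 := by
  by_contra z1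
  have z0 : z ≠ 0 := by
    rintro rfl
    have : ∀ n, P n 0 = 1 := fun n => by
      induction n with
      | zero => simp [P]
      | succ n ih => simp [P_succ, ih]
    simp [this] at hn
  have hz : 1 + z ^ 2 ≠ 0 := fun h => by
    obtain ⟨n, rfl⟩ := Nat.exists_eq_succ_of_ne_zero (by omega : n ≠ 0)
    rw [P_succ, h, zero_mul, zero_add] at hn
    have a1 : (n.choose (n / 2) : ℂ) ≠ 0 := by exact_mod_cast (Nat.choose_pos (by omega)).ne'
    have a2 : 1 - z = 0 := by simpa [a1, z0] using hn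
    rw [show z = 1 by linear_combination -a2] at h
    norm_num at h
  set v := 2 * z / (1 + z ^ 2) with hv
  have e : ∀ n, P n z = 0 → 1 + z + (1 - z) * A n v = 0 := fun n h => by
    have := P_eq n z hz
    rw [h, mul_zero] at this
    exact (mul_eq_zero.1 this.symm).resolve_left (pow_ne_zero _ hz)
  have z2 : 1 - z ≠ 0 := fun h => by
    have := e n hn
    rw [h, show z = 1 by linear_combination -h] at this
    norm_num at this
  have z3 : 1 + z ≠ 0 := fun h => z1 (by linear_combination h)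
  have v0 : v ≠ 0 := div_ne_zero (mul_ne_zero two_ne_zero z0) hz
  have v1 : 1 + v = (1 + z) ^ 2 / (1 + z ^ 2) := by rw [hv]; field_simp; ring
  have v2 : 1 - v = (1 - z) ^ 2 / (1 + z ^ 2) := by rw [hv]; field_simp; ring
  have v3 : 1 + v ≠ 0 := v1 ▸ div_ne_zero (pow_ne_zero _ z3) hz
  have hA : (1 - v) * A m v ^ 2 = 1 + v := by
    rw [v1, v2, div_mul_eq_mul_div]
    congr 1
    linear_combination ((1 - z) * A m v - (1 + z)) * e m hm
  obtain ⟨d, rfl⟩ := Nat.exists_eq_add_of_lt hmn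
  have hD : ∑ i ∈ range (d + 1), (b ((m + 1 + i) / 2) : ℂ) * v ^ i = 0 := by
    have a1 : A (m + d + 1) v = A m v :=
      mul_left_cancel₀ z2 (by linear_combination e _ hn - e _ hm)
    rw [A, show m + d + 1 + 1 = m + 1 + (d + 1) by ring, sum_range_add, ← A, add_eq_left] at a1
    refine (mul_eq_zero.1 (Eq.trans ?_ a1)).resolve_left (pow_ne_zero (m + 1) v0)
    rw [mul_sum]
    exact sum_congr rfl fun i _ => by ring
  have m0 : (0 : ℝ) ≤ m := m.cast_nonneg
  have rat : ∀ i, b ((m + 1 + (i + 1)) / 2) ≤ b ((m + 1 + i) / 2) ∧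
      b ((m + 1 + i) / 2) ≤ (m + 2) / (m + 1) * b ((m + 1 + (i + 1)) / 2) := fun i => by
    obtain ⟨l, hl | hl⟩ := (m + 1 + i).even_or_odd'
    · rw [show (m + 1 + (i + 1)) / 2 = (m + 1 + i) / 2 by omega]
      exact ⟨le_rfl, le_mul_of_one_le_left (b_pos _).le (by rw [le_div_iff₀ (by positivity)]; linarith)⟩
    · rw [show (m + 1 + (i + 1)) / 2 = l + 1 by omega, show (m + 1 + i) / 2 = l by omega, b_succ]
      have a1 : (m : ℝ) ≤ 2 * l := by exact_mod_cast (by omega : m ≤ 2 * l)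
      have := b_pos l
      constructor
      · exact mul_le_of_le_one_left this.le (by rw [div_le_one (by positivity)]; linarith)
      · rw [← mul_assoc]
        refine le_mul_of_one_le_left this.le ?_
        rw [div_mul_div_comm, le_div_iff₀ (by positivity)]
        nlinarith
  have lo := eklow (fun i => b ((m + 1 + i) / 2)) 1 zero_le_one v d (fun _ => b_pos _)
    (fun i _ => by simpa using (rat i).1) hD
  have up := ekup (fun i => b ((m + 1 + i) / 2)) _ (by positivity) v d (fun _ => b_pos _)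
    (fun i _ => (rat i).2) hD
  obtain ⟨k, rfl | rfl⟩ := m.even_or_odd'
  · cases k with
    | zero => simp [P] at hm
    | succ j =>
      refine absurd (even_case j v lo hA) (not_lt.2 (up.trans_eq ?_))
      push_cast; ring
  · rw [A_odd] at hA
    obtain ⟨hk, h⟩ := odd_case k (v ^ 2) (pow_ne_zero _ v0)
      (mul_left_cancel₀ v3 (by linear_combination hA))
    have k1 : (1 : ℝ) ≤ k := by exact_mod_cast hk
    have := h.trans ((norm_pow v 2).trans_le (pow_le_pow_left₀ (norm_nonneg _) up 2))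
    push_cast at this
    rw [div_pow, div_le_div_iff₀ (by linarith) (by positivity)] at this
    nlinarith

end Pool.Agent.H.MP_454c72_al
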